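import Pool.Agent.Run7.h608.BC.Iface

/-!
Project BC (MP_ddcbd8_an), piece SPL: removing finitely many frequencies.
-/

set_option autoImplicit false

open MeasureTheory Set Filter Topology
open scoped ENNReal ContDiff

namespace Run7.h495.BC

open Run7.h608.BC

theorem continuous_e (t : ℝ) : Continuous fun ξ : ℝ => e (ξ * t) := by
  unfold e
  fun_prop

theorem integrable_tst {g : ℝ → ℂ} (hg : Tst g) (t : ℝ) :
    Integrable fun ξ : ℝ => g ξ * e (ξ * t) := by
  refine Continuous.integrable_of_hasCompactSupport ?_ ?_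
  · exact hg.1.continuous.mul (continuous_e t)
  · exact hg.2.mul_right

theorem T_add {g k : ℝ → ℂ} (hg : Tst g) (hk : Tst k) :
    T (fun ξ => g ξ + k ξ) = fun t => T g t + T k t := by
  funext t
  unfold T
  rw [← integral_add (integrable_tst hg t) (integrable_tst hk t)]
  refine integral_congr_ae (Eventually.of_forall fun ξ => ?_)
  simp only
  ring

theorem t_SPL : S_LOC → S_SPL := by
  intro hLOC β x C hβ hG Z
  induction Z using Finset.induction_on with
  | empty =>
    intro _ g hg δ hδ
    refine ⟨g, hg, rfl, ?_, ?_, 0, ?_⟩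
    · intro ξ hξ
      exact notMem_tsupport_iff_eventuallyEq.1 hξ
    · intro ξ hξ
      exact absurd hξ (Finset.notMem_empty ξ)
    · intro n _
      rw [sub_self, norm_zero]
      exact hδ.le
  | insert ξ₀ Z' hnot ih =>
    intro hZ g hg δ hδ
    obtain ⟨g', hg', h0, h1, h2, N, hN⟩ := ih (fun ξ hξ => hZ ξ (Finset.mem_insert_of_mem hξ)) g hg
      (δ / 2) (by positivity)
    obtain ⟨hξ0, hξl⟩ := hZ ξ₀ (Finset.mem_insert_self _ _)
    have hρ : 0 < |ξ₀| / 2 := by positivity
    obtain ⟨χ, hχ, hχ1, hχ0, N', hN'⟩ := hLOC β x C hβ hG ξ₀ hξl g' hg' (δ / 2) (|ξ₀| / 2)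
      (by positivity) hρ
    have t1 : Tst (fun ξ => g' ξ * (1 - χ ξ)) :=
      ⟨hg'.1.mul (contDiff_const.sub hχ), hg'.2.mul_right⟩
    have t2 : Tst (fun ξ => g' ξ * χ ξ) := ⟨hg'.1.mul hχ, hg'.2.mul_right⟩
    refine ⟨fun ξ => g' ξ * (1 - χ ξ), t1, ?_, ?_, ?_, max N N', ?_⟩
    · have : χ 0 = 0 := by
        apply hχ0
        rw [zero_sub, abs_neg]
        linarith [abs_pos.2 hξ0]
      simp only [this, sub_zero, mul_one]
      exact h0
    · intro ξ hξ
      filter_upwards [h1 ξ hξ] with η hη
      rw [hη, zero_mul]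
    · intro ξ hξ
      rcases Finset.mem_insert.1 hξ with rfl | hξ
      · filter_upwards [hχ1] with η hη
        rw [hη, sub_self, mul_zero]
      · filter_upwards [h2 ξ hξ] with η hη
        rw [hη, zero_mul]
    · intro n hn
      have e1 : T g' = fun t => T (fun ξ => g' ξ * (1 - χ ξ)) t + T (fun ξ => g' ξ * χ ξ) t := by
        rw [← T_add t1 t2]
        congr 1
        funext ξ
        ring
      have e2 : L β x n (T g') = L β x n (T fun ξ => g' ξ * (1 - χ ξ))
          + L β x n (T fun ξ => g' ξ * χ ξ) := by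
        conv_lhs => rw [e1]
        exact L_add β x n _ _
      have a1 := hN n ((le_max_left _ _).trans hn)
      have a2 := hN' n ((le_max_right _ _).trans hn)
      have e3 : L β x n (T g) - L β x n (T fun ξ => g' ξ * (1 - χ ξ))
          = (L β x n (T g) - L β x n (T g')) + L β x n (T fun ξ => g' ξ * χ ξ) := by
        rw [e2]; ring
      rw [e3]
      refine (norm_add_le _ _).trans ?_
      linarith

end Run7.h495.BC
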